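import Pool.Agent.Helper77.RG.LSA
import Pool.Agent.Helper56.BG.Lse

/-!
# Range concatenation grammars: the tree evaluation is a linear-space function
-/

namespace Pool.Agent.Helper96.RG.PkLSE

open Pool.Agent.Helper31.RG
open Pool.Agent.Helper65.LinSpace Pool.Agent.Helper78 Pool.Agent.Helper78.Mpc
  Pool.Agent.Helper78.Xor Pool.Agent.Helper95.BG Finset
open Pool.Agent.Helper77.RG.PkLSA
open Pool.Agent.Helper56.BG.PkLSE (Bq LS_digQ LS_lor LS_orB LS_psN LS1.comp')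

variable {α β : Type} [Ctx α] [Ctx β]

/-- The parameters and the bounds. -/
structure Bk (q k r b M BT PS C : α → ℕ) (lt : α → ℕ → ℕ) : Prop where
  hq : LS q
  hk : LS k
  hr : LS r
  hb : LS b
  hM : LS M
  hBT : LS BT
  hPS : LS PS
  hC : LS C
  hlt : LS1 lt
  hlt' : ∀ z i, lt z i < 2 ^ q z
  b0 : ∀ z, 0 < b z
  M0 : ∀ z, 0 < M z
  q1 : ∀ z, 2 ^ q z ≤ C z
  n1 : ∀ z, (M z * b z) ^ (2 * k z) ≤ C z
  n2 : ∀ z, (M z * b z) ^ (k z * r z) ≤ C z
  z1 : ∀ z, (2 * k z * b z) ^ (2 * k z) ≤ C z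
  z2 : ∀ z, (2 * k z * b z) ^ (k z * r z) ≤ C z
  i1 : ∀ z, (2 ^ (q z + 2)) ^ (k z * (r z + 1)) ≤ C z
  v1 : ∀ z, (k z * (r z + 1) + 1) ^ k z ≤ C z
  v2 : ∀ z, (2 ^ q z) ^ ((k z * (r z + 1) + 1) ^ k z) ≤ C z
  d1 : ∀ z, (2 * k z + k z * r z) ^ (2 * k z) ≤ C z
  t1 : ∀ z, (2 ^ q z) ^ ((2 * k z * b z) ^ (2 * k z)) ≤ C z

section

variable {q k r b M BT PS C : α → ℕ} {lt : α → ℕ → ℕ}

theorem Bk.comp (h : Bk q k r b M BT PS C lt) {f : β → α} (hf : LS f) :
    Bk (fun z => q (f z)) (fun z => k (f z)) (fun z => r (f z)) (fun z => b (f z))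
      (fun z => M (f z)) (fun z => BT (f z)) (fun z => PS (f z)) (fun z => C (f z))
      (fun z => lt (f z)) where
  hq := LS.comp h.hq hf
  hk := LS.comp h.hk hf
  hr := LS.comp h.hr hf
  hb := LS.comp h.hb hf
  hM := LS.comp h.hM hf
  hBT := LS.comp h.hBT hf
  hPS := LS.comp h.hPS hf
  hC := LS.comp h.hC hf
  hlt := LS1.comp' h.hlt hf
  hlt' z i := h.hlt' (f z) i
  b0 z := h.b0 (f z)
  M0 z := h.M0 (f z)
  q1 z := h.q1 (f z)
  n1 z := h.n1 (f z)
  n2 z := h.n2 (f z)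
  z1 z := h.z1 (f z)
  z2 z := h.z2 (f z)
  i1 z := h.i1 (f z)
  v1 z := h.v1 (f z)
  v2 z := h.v2 (f z)
  d1 z := h.d1 (f z)
  t1 z := h.t1 (f z)

theorem Bk.fst (h : Bk q k r b M BT PS C lt) :
    Bk (α := α × ℕ) (fun z => q z.1) (fun z => k z.1) (fun z => r z.1) (fun z => b z.1)
      (fun z => M z.1) (fun z => BT z.1) (fun z => PS z.1) (fun z => C z.1)
      (fun z => lt z.1) :=
  h.comp (f := fun z : α × ℕ => z.1) (by fun_prop)

theorem Bk.toBq (h : Bk q k r b M BT PS C lt) : Bq q C := ⟨h.hq, h.hC, h.q1⟩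

theorem Bk.hp (h : Bk q k r b M BT PS C lt) : LS (fun z => 2 ^ q z) := h.toBq.pow

theorem Bk.hz1 (h : Bk q k r b M BT PS C lt) :
    LS (fun z => (2 * k z * b z) ^ (2 * k z)) := by
  have hk := h.hk
  have hb := h.hb
  exact LS.pow_of_le (f := fun z => 2 * k z * b z) (g := fun z => 2 * k z) (by fun_prop)
    (by fun_prop) h.hC h.z1

theorem Bk.hz2 (h : Bk q k r b M BT PS C lt) :
    LS (fun z => (2 * k z * b z) ^ (k z * r z)) := by
  have hk := h.hk
  have hb := h.hb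
  have hr := h.hr
  exact LS.pow_of_le (f := fun z => 2 * k z * b z) (g := fun z => k z * r z) (by fun_prop)
    (by fun_prop) h.hC h.z2

theorem Bk.hD (h : Bk q k r b M BT PS C lt) :
    LS (fun z => (2 * k z + k z * r z) ^ (2 * k z)) := by
  have hk := h.hk
  have hr := h.hr
  exact LS.pow_of_le (f := fun z => 2 * k z + k z * r z) (g := fun z => 2 * k z) (by fun_prop)
    (by fun_prop) h.hC h.d1

theorem Bk.hMZ (h : Bk q k r b M BT PS C lt) : LS (fun z => M z ^ (2 * k z)) := by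
  have hk := h.hk
  exact LS.pow_of_le (f := M) (g := fun z => 2 * k z) h.hM (by fun_prop) h.hC fun z =>
    (Nat.pow_le_pow_left (Nat.le_mul_of_pos_right _ (h.b0 z)) _).trans (h.n1 z)

theorem Bk.hMC (h : Bk q k r b M BT PS C lt) : LS (fun z => M z ^ (k z * r z)) := by
  have hk := h.hk
  have hr := h.hr
  exact LS.pow_of_le (f := M) (g := fun z => k z * r z) h.hM (by fun_prop) h.hC fun z =>
    (Nat.pow_le_pow_left (Nat.le_mul_of_pos_right _ (h.b0 z)) _).trans (h.n2 z)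

theorem Bk.hbC (h : Bk q k r b M BT PS C lt) : LS (fun z => b z ^ (k z * r z)) := by
  have hk := h.hk
  have hr := h.hr
  exact LS.pow_of_le (f := b) (g := fun z => k z * r z) h.hb (by fun_prop) h.hC fun z =>
    (Nat.pow_le_pow_left (Nat.le_mul_of_pos_left _ (h.M0 z)) _).trans (h.n2 z)

theorem Bk.hPL (h : Bk q k r b M BT PS C lt) :
    LS (fun z => 2 ^ ((2 * k z * b z) ^ (2 * k z) * q z)) := by
  have h1 := h.hz1
  have hq := h.hq
  exact LS.pow_of_le (f := fun _ => 2) (g := fun z => (2 * k z * b z) ^ (2 * k z) * q z)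
    (by fun_prop) (LS.mul h1 hq) h.hC fun z => by rw [← pow_L]; exact h.t1 z

theorem Bk.N0 (h : Bk q k r b M BT PS C lt) (z : α) : 0 < M z * b z :=
  Nat.mul_pos (h.M0 z) (h.b0 z)

variable {Z x n C' o e c π φ : α → ℕ}

theorem LS_lft (h : Bk q k r b M BT PS C lt) (hZ : LS Z) (hn : LS n) (hx : LS x)
    (hb : ∀ z, (M z * b z) ^ n z ≤ C z) :
    LS (fun z => lft (k z) (b z) (M z) (Z z) (n z) (x z)) := by
  have hk := h.hk
  have hb' := h.hb
  have hM := h.hM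
  unfold lft
  exact LS.tab (q := fun z => M z * b z) (m := n) (C := C)
    (d := fun z j => dig (M z) (Z z) (dig (2 * k z * b z) (x z) j / b z) * b z +
      dig (2 * k z * b z) (x z) j % b z) (by fun_prop) (by fun_prop) hn h.hC
    (fun z i _ => lft_digit_lt (h.b0 z) (h.M0 z) _ _) hb

theorem LS_lftZ (h : Bk q k r b M BT PS C lt) (hZ : LS Z) (hx : LS x) :
    LS (fun z => lft (k z) (b z) (M z) (Z z) (2 * k z) (x z)) := by
  have hk := h.hk
  exact LS_lft (n := fun z => 2 * k z) h hZ (by fun_prop) hx h.n1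

theorem LS_lftC (h : Bk q k r b M BT PS C lt) (hZ : LS Z) (hx : LS x) :
    LS (fun z => lft (k z) (b z) (M z) (Z z) (k z * r z) (x z)) := by
  have hk := h.hk
  have hr := h.hr
  exact LS_lft (n := fun z => k z * r z) h hZ (by fun_prop) hx h.n2

theorem LS_cutN (h : Bk q k r b M BT PS C lt) (hC' : LS C') (ho : LS o) :
    LS (fun z => cutN (b z) (M z) (k z * r z) (C' z) (o z)) := by
  have hk := h.hk
  have hb' := h.hb
  have hM := h.hM
  have hr := h.hr
  unfold cutN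
  exact LS.tab (q := fun z => M z * b z) (m := fun z => k z * r z) (C := C)
    (d := fun z t => dig (M z) (C' z) t * b z + dig (b z) (o z) t) (by fun_prop)
    (by fun_prop) (by fun_prop) h.hC
    (fun z i _ => cutN_digit_lt (h.b0 z) (h.M0 z) _ _ _) h.n2

theorem LS_farN (h : Bk q k r b M BT PS C lt) (he : LS e) (hc : LS c) :
    LS (fun z => farN (k z) (r z) (b z) (M z * b z) (e z) (c z)) := by
  have hk := h.hk
  have hb' := h.hb
  have hM := h.hM
  have hr := h.hr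
  unfold farN
  exact LS.sum_le (f := fun z t => lt01 (dig (M z * b z) (e z) (2 * (t / r z)) / b z)
      (dig (M z * b z) (c z) t / b z) *
    lt01 (dig (M z * b z) (c z) t / b z) (dig (M z * b z) (e z) (2 * (t / r z) + 1) / b z))
    (N := fun z => k z * r z) (B := fun _ => 1) (by fun_prop) (by fun_prop) (by fun_prop)
    (fun z t _ => (Nat.mul_le_mul (Xor.lt01_le _ _) (Xor.lt01_le _ _)).trans (by norm_num))

theorem LS_potZ (h : Bk q k r b M BT PS C lt) (he : LS e) :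
    LS (fun z => pot (k z) (b z) (M z * b z) (e z)) := by
  have hb' := h.hb
  have hM := h.hM
  exact LS_pot (N := fun z => M z * b z) h.hk h.hb (by fun_prop) he h.N0

theorem LS_trm (h : Bk q k r b M BT PS C lt) {R : α → ℕ → ℕ} (hR : LS1 R)
    (hR' : ∀ z i, R z i < 2 ^ q z) (he : LS e) (hc : LS c) :
    LS (fun z => trm (q z) (k z) (r z) (M z * b z) (lt z) (btR (q z) (k z) (r z) (BT z))
      (R z) (e z) (c z)) := by
  have hb' := h.hb
  have hM := h.hM
  exact Pool.Agent.Helper77.RG.PkLSA.thm α q k r (fun z => M z * b z) BT C e c lt R h.hq h.hk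
    h.hr (by fun_prop) h.hBT h.hC he hc h.hlt hR h.hlt' hR' h.N0 h.n1 h.q1 h.i1 h.v1 h.v2

theorem LS_yZ (h : Bk q k r b M BT PS C lt) (he : LS e) (hc : LS c) (hp : LS π) :
    LS (fun z => yN (k z) (r z) (2 * k z * b z) (e z) (c z) (π z)) := by
  have hk := h.hk
  have hb' := h.hb
  have hr := h.hr
  unfold yN
  refine LS.tab (q := fun z => 2 * k z * b z) (m := fun z => 2 * k z) (C := C)
    (d := fun z t => pt (k z) (2 * k z * b z) (e z) (c z) (sel (k z) (r z) (π z) t))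
    (by fun_prop) (by fun_prop) (by fun_prop) h.hC (fun z i hi => pt_lt ?_ _ _ _ _) h.z1
  exact Nat.mul_pos (by omega) (h.b0 z)

end

section

variable {q k r b M BT PS C : α → ℕ} {lt : α → ℕ → ℕ} {Z x xc W S Pv φ X C' π e c A B : α → ℕ}

theorem LS_nearN (h : Bk q k r b M BT PS C lt) (hZ : LS Z) (hW : LS W) (hx : LS x)
    (hxc : LS xc) :
    LS (fun z => nearN (q z) (k z) (r z) (b z) (M z) (lt z) (btR (q z) (k z) (r z) (BT z))
      (Z z) (W z) (x z) (xc z)) := by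
  have a1 : LS (fun z : α × ℕ => x z.1) := by fun_prop
  have a2 : LS (fun z : α × ℕ => xc z.1) := by fun_prop
  have a3 : LS (fun z : α × ℕ => z.2) := by fun_prop
  have a4 : LS (fun z : α × ℕ => W z.1) := by fun_prop
  have h' := h.fst
  have hy := LS_yZ h' a1 a2 a3
  have hR : LS1 (fun z π => dig (2 ^ q z) (W z)
      (yN (k z) (r z) (2 * k z * b z) (x z) (xc z) π)) := LS.dig h'.hp a4 hy
  have hR' : ∀ (z : α) (i : ℕ), (fun z π => dig (2 ^ q z) (W z)
      (yN (k z) (r z) (2 * k z * b z) (x z) (xc z) π)) z i < 2 ^ q z :=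
    fun z i => dig_lt (by positivity) _ _
  have h1 := LS_lftZ h hZ hx
  have h2 := LS_lftC h hZ hxc
  have ht := LS_trm h hR hR' h1 h2
  have hf := LS_farN h h1 h2
  unfold nearN
  exact LS.ifz hf ht (LS.const 0)

theorem LS_stepZ (h : Bk q k r b M BT PS C lt) (hφ : LS φ) (hZ : LS Z) (hS : LS S)
    (hPv : LS Pv) (hW : LS W) :
    LS (fun z => stepZ (q z) (k z) (r z) (b z) (M z) (lt z) (btR (q z) (k z) (r z) (BT z))
      (psN (q z) (PS z)) (φ z) (Z z) (S z) (Pv z) (W z)) := by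
  unfold stepZ
  refine LS.tab (q := fun z => 2 ^ q z) (m := fun z => (2 * k z * b z) ^ (2 * k z)) (C := C)
    (d := fun z x => ifz (lt01 (φ z) (pot (k z) (b z) (M z * b z)
        (lft (k z) (b z) (M z) (Z z) (2 * k z) x)))
      (ifz (lt01 (pot (k z) (b z) (M z * b z) (lft (k z) (b z) (M z) (Z z) (2 * k z) x)) (φ z))
        (psN (q z) (PS z) (lor (q z) (dig (2 ^ q z) (S z) x)
          (orB (q z) 0 ((2 * k z * b z) ^ (k z * r z)) fun xc => nearN (q z) (k z) (r z) (b z)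
            (M z) (lt z) (btR (q z) (k z) (r z) (BT z)) (Z z) (W z) x xc)))
        (dig (2 ^ q z) (Pv z) x)) 0) ?_ h.hp h.hz1 h.hC
      (fun z i _ => ifz_lt (ifz_lt (dig_lt (by positivity) _ _) (dig_lt (by positivity) _ _))
        (by positivity)) h.t1
  have h' := h.fst
  have a1 : LS (fun z : α × ℕ => Z z.1) := by fun_prop
  have a2 : LS (fun z : α × ℕ => z.2) := by fun_prop
  have hφ' : LS (fun z : α × ℕ => φ z.1) := by fun_prop
  have hpot := LS_potZ h' (LS_lftZ h' a1 a2)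
  have h'' := h'.fst
  have b1 : LS (fun z : (α × ℕ) × ℕ => Z z.1.1) := by fun_prop
  have b2 : LS (fun z : (α × ℕ) × ℕ => W z.1.1) := by fun_prop
  have b3 : LS (fun z : (α × ℕ) × ℕ => z.1.2) := by fun_prop
  have b4 : LS (fun z : (α × ℕ) × ℕ => z.2) := by fun_prop
  have hn : LS1 (fun (z : α × ℕ) xc => nearN (q z.1) (k z.1) (r z.1) (b z.1) (M z.1) (lt z.1)
      (btR (q z.1) (k z.1) (r z.1) (BT z.1)) (Z z.1) (W z.1) z.2 xc) :=
    LS_nearN h'' b1 b2 b3 b4
  have ho := LS_orB h'.toBq (LS.const 0) h'.hz2 hn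
  have c1 : LS (fun z : α × ℕ => S z.1) := by fun_prop
  have c2 : LS (fun z : α × ℕ => Pv z.1) := by fun_prop
  have hdS := LS_digQ h'.toBq c1 a2
  have hdP := LS_digQ h'.toBq c2 a2
  exact LS.ifz (LS.lt01 hφ' hpot) (LS.ifz (LS.lt01 hpot hφ')
    (LS_psN h'.toBq h'.hPS (LS_lor h'.toBq hdS ho)) hdP) (LS.const 0)

end

theorem stepZ_lt {q k r b M BT PS φ Z S Pv W : ℕ} {lt : ℕ → ℕ} :
    stepZ q k r b M lt (btR q k r BT) (psN q PS) φ Z S Pv W <
      (2 ^ q) ^ ((2 * k * b) ^ (2 * k)) :=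
  tab_lt fun _ _ => ifz_lt (ifz_lt (dig_lt (by positivity) _ _) (dig_lt (by positivity) _ _))
    (by positivity)

theorem classZ_aux {q k r b M BT PS φ Z S Pv : ℕ} {lt : ℕ → ℕ} (i : ℕ) :
    nrec 0 (fun _ W => stepZ q k r b M lt (btR q k r BT) (psN q PS) φ Z S Pv W) i <
      (2 ^ q) ^ ((2 * k * b) ^ (2 * k)) := by
  cases i with
  | zero => rw [nrec_zero]; positivity
  | succ i => rw [nrec_succ]; exact stepZ_lt

section

variable {q k r b M BT PS C : α → ℕ} {lt : α → ℕ → ℕ} {Z x xc W S Pv φ X C' π e c A B : α → ℕ}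

theorem LS_classZ (h : Bk q k r b M BT PS C lt) (hφ : LS φ) (hZ : LS Z) (hS : LS S)
    (hPv : LS Pv) :
    LS (fun z => classZ (q z) (k z) (r z) (b z) (M z) (lt z) (btR (q z) (k z) (r z) (BT z))
      (psN (q z) (PS z)) (φ z) (Z z) (S z) (Pv z)) := by
  have hk := h.hk
  have hb := h.hb
  have hM := h.hM
  unfold classZ
  refine LS.nrec (G := fun _ => 0) (N := fun z => k z * ((k z + 1) * (M z * b z) + 1) + 1)
    (C := C) (K := fun z _ W => stepZ (q z) (k z) (r z) (b z) (M z) (lt z)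
      (btR (q z) (k z) (r z) (BT z)) (psN (q z) (PS z)) (φ z) (Z z) (S z) (Pv z) W)
    (by fun_prop) (by fun_prop) h.hC ?_ (fun z i _ => (classZ_aux i).le.trans (h.t1 z))
  have h' := h.comp (f := fun z : α × ℕ × ℕ => z.1) (by fun_prop)
  have a1 : LS (fun z : α × ℕ × ℕ => φ z.1) := by fun_prop
  have a2 : LS (fun z : α × ℕ × ℕ => Z z.1) := by fun_prop
  have a3 : LS (fun z : α × ℕ × ℕ => S z.1) := by fun_prop
  have a4 : LS (fun z : α × ℕ × ℕ => Pv z.1) := by fun_prop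
  have a5 : LS (fun z : α × ℕ × ℕ => z.2.2) := by fun_prop
  exact LS_stepZ h' a1 a2 a3 a4 a5

/-- The points chosen by a pattern. -/
theorem sel_lt {k r π t : ℕ} (hk : 0 < k) : sel k r π t < 2 * k + k * r := by
  unfold sel
  rw [ifz_lt01]
  split_ifs with h1
  · have h2 : dig (k * (r + 1) + 1) π (t / 2) / (r + 1) < k :=
      (Nat.div_lt_iff_lt_mul (by omega)).2 h1
    have h3 : dig (k * (r + 1) + 1) π (t / 2) % (r + 1) < r + 1 := Nat.mod_lt _ (by omega)
    have h4 : (dig (k * (r + 1) + 1) π (t / 2) / (r + 1) + 1) * r ≤ k * r :=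
      Nat.mul_le_mul_right _ h2
    rw [Nat.succ_mul] at h4
    refine ifz_lt ?_ ?_
    · unfold lD ifz
      split_ifs with h5
      · omega
      · omega
    · unfold rD ifz
      split_ifs with h5
      · omega
      · omega
  · omega

theorem slot_lt {k r b x π t : ℕ} (hk : 0 < k) (hb : 0 < b) :
    slot k b x (sel k r π t) < 2 * k + k * r := by
  unfold slot
  refine ifz_lt (sel_lt hk) ?_
  have h1 : dig (2 * k * b) x (sel k r π t) < 2 * k * b := dig_lt (by positivity) _ _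
  have h2 := (Nat.div_lt_iff_lt_mul hb).2 h1
  omega

theorem LS_chi (h : Bk q k r b M BT PS C lt) (hx : LS x) (hp : LS π) :
    LS (fun z => chi (k z) (r z) (b z) (x z) (π z)) := by
  have hk := h.hk
  have hb := h.hb
  have hr := h.hr
  unfold chi
  refine LS.tab (q := fun z => 2 * k z + k z * r z) (m := fun z => 2 * k z) (C := C)
    (d := fun z t => slot (k z) (b z) (x z) (sel (k z) (r z) (π z) t)) ?_ (by fun_prop)
    (by fun_prop) h.hC (fun z i hi => slot_lt (by omega) (h.b0 z)) h.d1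
  unfold slot
  fun_prop

theorem LS_ent (h : Bk q k r b M BT PS C lt) (he : LS e) (hc : LS c) (hp : LS π) :
    LS (fun z => Helper31.RG.ent (k z) (r z) (b z) (M z * b z) (e z) (c z) (π z)) := by
  have hk := h.hk
  have hb := h.hb
  have hr := h.hr
  have hM := h.hM
  unfold Helper31.RG.ent
  refine LS.tab (q := fun z => 2 * k z * b z) (m := fun z => 2 * k z) (C := C)
    (d := fun z t => t * b z + pt (k z) (M z * b z) (e z) (c z)
      (sel (k z) (r z) (π z) t) % b z) (by fun_prop) (by fun_prop)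
    (by fun_prop) h.hC (fun z i hi => ?_) h.z1
  have h1 := Nat.mod_lt (pt (k z) (M z * b z) (e z) (c z) (sel (k z) (r z) (π z) i)) (h.b0 z)
  have h2 : (i + 1) * b z ≤ 2 * k z * b z := Nat.mul_le_mul_right _ hi
  rw [Nat.succ_mul] at h2
  show i * b z + pt (k z) (M z * b z) (e z) (c z) (sel (k z) (r z) (π z) i) % b z < 2 * k z * b z
  omega

theorem LS_prodZ (h : Bk q k r b M BT PS C lt) (hφ : LS φ) (hZ : LS Z) (hC' : LS C')
    (hX : LS X) :
    LS (fun z => prodZ (q z) (k z) (r z) (b z) (M z) (lt z) (btR (q z) (k z) (r z) (BT z))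
      (φ z) (Z z) (C' z) (X z)) := by
  unfold prodZ
  refine LS.tab (q := fun z => 2 ^ q z) (m := fun z => (2 * k z * b z) ^ (2 * k z)) (C := C)
    (d := fun z x => ifz (lt01 (φ z) (pot (k z) (b z) (M z * b z)
        (lft (k z) (b z) (M z) (Z z) (2 * k z) x)))
      (orB (q z) 0 (b z ^ (k z * r z)) fun o =>
        ifz (farN (k z) (r z) (b z) (M z * b z) (lft (k z) (b z) (M z) (Z z) (2 * k z) x)
          (cutN (b z) (M z) (k z * r z) (C' z) o)) 0
          (trm (q z) (k z) (r z) (M z * b z) (lt z) (btR (q z) (k z) (r z) (BT z))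
            (fun π => dig (2 ^ q z) (dig (2 ^ ((2 * k z * b z) ^ (2 * k z) * q z)) (X z)
              (chi (k z) (r z) (b z) x π))
              (Helper31.RG.ent (k z) (r z) (b z) (M z * b z) (lft (k z) (b z) (M z) (Z z) (2 * k z) x)
                (cutN (b z) (M z) (k z * r z) (C' z) o) π))
            (lft (k z) (b z) (M z) (Z z) (2 * k z) x)
            (cutN (b z) (M z) (k z * r z) (C' z) o))) 0) ?_ h.hp h.hz1 h.hC
      (fun z i _ => ifz_lt (orB_lt _ _ _ _) (by positivity)) h.t1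
  have h' := h.fst
  have a1 : LS (fun z : α × ℕ => Z z.1) := by fun_prop
  have a2 : LS (fun z : α × ℕ => z.2) := by fun_prop
  have hφ' : LS (fun z : α × ℕ => φ z.1) := by fun_prop
  have hpot := LS_potZ h' (LS_lftZ h' a1 a2)
  have h2 := h'.fst
  have b1 : LS (fun z : (α × ℕ) × ℕ => Z z.1.1) := by fun_prop
  have b2 : LS (fun z : (α × ℕ) × ℕ => C' z.1.1) := by fun_prop
  have b3 : LS (fun z : (α × ℕ) × ℕ => z.1.2) := by fun_prop
  have b4 : LS (fun z : (α × ℕ) × ℕ => z.2) := by fun_prop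
  have hl := LS_lftZ h2 b1 b3
  have hc := LS_cutN h2 b2 b4
  have h3 := h2.fst
  have c0 : LS (fun z : ((α × ℕ) × ℕ) × ℕ => z.1) := by fun_prop
  have c1 : LS (fun z : ((α × ℕ) × ℕ) × ℕ => z.2) := by fun_prop
  have c2 : LS (fun z : ((α × ℕ) × ℕ) × ℕ => z.1.1.2) := by fun_prop
  have c3 : LS (fun z : ((α × ℕ) × ℕ) × ℕ => X z.1.1.1) := by fun_prop
  have hl3 := LS.comp (f := fun z : ((α × ℕ) × ℕ) × ℕ => z.1) hl c0
  have hc3 := LS.comp (f := fun z : ((α × ℕ) × ℕ) × ℕ => z.1) hc c0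
  have he3 := LS_ent h3 hl3 hc3 c1
  have hx3 := LS_chi h3 c2 c1
  have hX3 := LS.dig h3.hPL c3 hx3
  have hR : LS1 (fun (z : (α × ℕ) × ℕ) π => dig (2 ^ q z.1.1) (dig (2 ^ ((2 * k z.1.1 *
      b z.1.1) ^ (2 * k z.1.1) * q z.1.1)) (X z.1.1)
      (chi (k z.1.1) (r z.1.1) (b z.1.1) z.1.2 π))
      (Helper31.RG.ent (k z.1.1) (r z.1.1) (b z.1.1) (M z.1.1 * b z.1.1)
        (lft (k z.1.1) (b z.1.1) (M z.1.1) (Z z.1.1) (2 * k z.1.1) z.1.2)
        (cutN (b z.1.1) (M z.1.1) (k z.1.1 * r z.1.1) (C' z.1.1) z.2) π)) :=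
    LS_digQ h3.toBq hX3 he3
  have hR' : ∀ (z : (α × ℕ) × ℕ) (i : ℕ), (fun (z : (α × ℕ) × ℕ) π => dig (2 ^ q z.1.1)
      (dig (2 ^ ((2 * k z.1.1 *
      b z.1.1) ^ (2 * k z.1.1) * q z.1.1)) (X z.1.1)
      (chi (k z.1.1) (r z.1.1) (b z.1.1) z.1.2 π))
      (Helper31.RG.ent (k z.1.1) (r z.1.1) (b z.1.1) (M z.1.1 * b z.1.1)
        (lft (k z.1.1) (b z.1.1) (M z.1.1) (Z z.1.1) (2 * k z.1.1) z.1.2)
        (cutN (b z.1.1) (M z.1.1) (k z.1.1 * r z.1.1) (C' z.1.1) z.2) π)) z i < 2 ^ q z.1.1 :=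
    fun z i => dig_lt (by positivity) _ _
  have ht := LS_trm h2 hR hR' hl hc
  have hf := LS_farN h2 hl hc
  have hi : LS1 (fun (z : α × ℕ) o =>
      ifz (farN (k z.1) (r z.1) (b z.1) (M z.1 * b z.1)
        (lft (k z.1) (b z.1) (M z.1) (Z z.1) (2 * k z.1) z.2)
        (cutN (b z.1) (M z.1) (k z.1 * r z.1) (C' z.1) o)) 0
        (trm (q z.1) (k z.1) (r z.1) (M z.1 * b z.1) (lt z.1)
          (btR (q z.1) (k z.1) (r z.1) (BT z.1))
          (fun π => dig (2 ^ q z.1) (dig (2 ^ ((2 * k z.1 *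
      b z.1) ^ (2 * k z.1) * q z.1)) (X z.1)
      (chi (k z.1) (r z.1) (b z.1) z.2 π))
      (Helper31.RG.ent (k z.1) (r z.1) (b z.1) (M z.1 * b z.1)
        (lft (k z.1) (b z.1) (M z.1) (Z z.1) (2 * k z.1) z.2)
        (cutN (b z.1) (M z.1) (k z.1 * r z.1) (C' z.1) o) π))
          (lft (k z.1) (b z.1) (M z.1) (Z z.1) (2 * k z.1) z.2)
          (cutN (b z.1) (M z.1) (k z.1 * r z.1) (C' z.1) o))) :=
    LS.ifz hf (LS.const 0) ht
  have ho := LS_orB h'.toBq (LS.const 0) h'.hbC hi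
  exact LS.ifz (LS.lt01 hφ' hpot) ho (LS.const 0)

theorem LS_sumZ (h : Bk q k r b M BT PS C lt) (hA : LS A) (hB : LS B) :
    LS (fun z => sumZ (q z) (k z) (b z) (A z) (B z)) := by
  unfold sumZ
  refine LS.tab (q := fun z => 2 ^ q z) (m := fun z => (2 * k z * b z) ^ (2 * k z)) (C := C)
    (d := fun z x => lor (q z) (dig (2 ^ q z) (A z) x) (dig (2 ^ q z) (B z) x)) ?_ h.hp h.hz1
      h.hC (fun z i _ => lor_lt _ _ _) h.t1
  have h' := h.fst
  have a1 : LS (fun z : α × ℕ => A z.1) := by fun_prop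
  have a2 : LS (fun z : α × ℕ => B z.1) := by fun_prop
  have a3 : LS (fun z : α × ℕ => z.2) := by fun_prop
  exact LS_lor h'.toBq (LS_digQ h'.toBq a1 a3) (LS_digQ h'.toBq a2 a3)

theorem LS_subZ (h : Bk q k r b M BT PS C lt) {i : α → ℕ} (hZ : LS Z) (hC' : LS C')
    (hi : LS i) : LS (fun z => subZ (k z) (r z) (M z) (Z z) (C' z) (i z)) := by
  have hk := h.hk
  have hb := h.hb
  have hr := h.hr
  have hM := h.hM
  unfold subZ
  exact LS.tab (q := M) (m := fun z => 2 * k z) (C := C)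
    (d := fun z t => ifz (lt01 (dig (2 * k z + k z * r z) (i z) t) (2 * k z))
      (dig (M z) (C' z) (dig (2 * k z + k z * r z) (i z) t - 2 * k z))
      (dig (M z) (Z z) (dig (2 * k z + k z * r z) (i z) t))) (by fun_prop) hM (by fun_prop)
    h.hC (fun z i _ => ifz_lt (dig_lt (h.M0 z) _ _) (dig_lt (h.M0 z) _ _))
    (fun z => (Nat.pow_le_pow_left (Nat.le_mul_of_pos_right _ (h.b0 z)) _).trans (h.n1 z))

theorem LS_nd {H MZ MC φ l Z C : α → ℕ} (hH : LS H) (hMZ : LS MZ) (hMC : LS MC) (hφ : LS φ)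
    (hl : LS l) (hZ : LS Z) (hC : LS C) :
    LS (fun z => nd (H z) (MZ z) (MC z) (φ z) (l z) (Z z) (C z)) := by
  unfold nd
  fun_prop

theorem LS_chZ (h : Bk q k r b M BT PS C lt) {H l i : α → ℕ} (hH : LS H) (hφ : LS φ)
    (hl : LS l) (hZ : LS Z) (hC' : LS C') (hi : LS i) :
    LS (fun z => chZ (k z) (r z) (M z) (H z) (φ z) (l z) (Z z) (C' z) (i z)) := by
  have h1 := h.hMZ
  have h2 := h.hMC
  unfold chZ
  exact LS.ifz hl (LS.ifz hi
    (LS_nd hH h1 h2 hφ (LS.sub hH (LS.const 1)) hZ (LS.const 0))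
    (LS_nd hH h1 h2 (LS.sub hφ (LS.const 1)) (LS.const 0) hZ (LS.const 0)))
    (LS.ifz (LS.sub hl (LS.const 1))
      (LS_nd hH h1 h2 (LS.sub hφ (LS.const 1)) (LS.const 0) (LS_subZ h hZ hC' hi) (LS.const 0))
      (LS_nd hH h1 h2 hφ (LS.sub hl (LS.const 1)) hZ
        (LS.mod (LS.add (LS.mul (LS.const 2) hC') hi) h2)))

theorem LS_FZ (h : Bk q k r b M BT PS C lt) {l : α → ℕ} (hφ : LS φ)
    (hl : LS l) (hZ : LS Z) (hC' : LS C') (hX : LS X) :
    LS (fun z => FZ (q z) (k z) (r z) (b z) (M z) (lt z) (btR (q z) (k z) (r z) (BT z))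
      (psN (q z) (PS z)) (φ z) (l z) (Z z) (C' z) (X z)) := by
  have h0 := LS.dig h.hPL hX (LS.const 0)
  have h1 := LS.dig h.hPL hX (LS.const 1)
  unfold FZ
  exact LS.ifz hl (LS.ifz hφ (LS.const 0) (LS_classZ h hφ hZ h0 h1))
    (LS.ifz (LS.sub hl (LS.const 1)) (LS_prodZ h hφ hZ hC' hX) (LS_sumZ h h0 h1))

end

theorem FZ_lt {q k r b M BT PS φ l Z C X : ℕ} {lt : ℕ → ℕ} :
    FZ q k r b M lt (btR q k r BT) (psN q PS) φ l Z C X <
      2 ^ ((2 * k * b) ^ (2 * k) * q) := by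
  rw [← pow_L]
  unfold FZ
  refine ifz_lt (ifz_lt (by positivity) (classZ_aux _)) (ifz_lt ?_ ?_)
  · exact tab_lt fun _ _ => ifz_lt (orB_lt _ _ _ _) (by positivity)
  · exact tab_lt fun _ _ => lor_lt _ _ _

theorem nd_le {H MZ MC φ l Z C a u : ℕ} (hZ : Z < MZ) (hC : C < MC)
    (ha : φ * H + l + 1 ≤ a + H) (hu : a * (MZ * MC) ≤ u) :
    nd H MZ MC φ l Z C ≤ u + H * (MZ * MC) := by
  unfold nd
  have h1 : (φ * H + l) * MZ + Z + 1 ≤ (φ * H + l + 1) * MZ := by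
    rw [Nat.succ_mul]
    omega
  have h2 : ((φ * H + l) * MZ + Z + 1) * MC ≤ (φ * H + l + 1) * MZ * MC :=
    Nat.mul_le_mul_right _ h1
  have h3 : (φ * H + l + 1) * (MZ * MC) ≤ (a + H) * (MZ * MC) := Nat.mul_le_mul_right _ ha
  rw [Nat.succ_mul, mul_assoc] at h2
  rw [Nat.add_mul a H] at h3
  omega

theorem chZ_le {k r M H : ℕ} (hM : 0 < M) (hH : 0 < H) (u i : ℕ) :
    chZ k r M H (u / M ^ (k * r) / M ^ (2 * k) / H) (u / M ^ (k * r) / M ^ (2 * k) % H)
      (u / M ^ (k * r) % M ^ (2 * k)) (u % M ^ (k * r)) i ≤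
      u + H * (M ^ (2 * k) * M ^ (k * r)) := by
  have h1 : 0 < M ^ (k * r) := by positivity
  have h2 : 0 < M ^ (2 * k) := by positivity
  have h3 : u / M ^ (k * r) % M ^ (2 * k) < M ^ (2 * k) := Nat.mod_lt _ h2
  have h4 : u / M ^ (k * r) / M ^ (2 * k) * (M ^ (2 * k) * M ^ (k * r)) ≤ u := by
    rw [Nat.div_div_eq_div_mul, mul_comm (M ^ (2 * k))]
    exact Nat.div_mul_le_self _ _
  have h5 := Nat.div_add_mod (u / M ^ (k * r) / M ^ (2 * k)) H
  rw [mul_comm] at h5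
  have h6 : (u / M ^ (k * r) / M ^ (2 * k) / H - 1) * H ≤
      u / M ^ (k * r) / M ^ (2 * k) / H * H := Nat.mul_le_mul_right _ (Nat.sub_le _ _)
  have h7 : subZ k r M (u / M ^ (k * r) % M ^ (2 * k)) (u % M ^ (k * r)) i < M ^ (2 * k) :=
    tab_lt fun _ _ => ifz_lt (dig_lt hM _ _) (dig_lt hM _ _)
  have h8 : (2 * (u % M ^ (k * r)) + i) % M ^ (k * r) < M ^ (k * r) := Nat.mod_lt _ h1
  unfold chZ
  by_cases c0 : u / M ^ (k * r) / M ^ (2 * k) % H = 0
  · rw [c0, Helper31.RG.ifz_zero]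
    by_cases c1 : i = 0
    · rw [c1, Helper31.RG.ifz_zero]
      exact nd_le h3 h1 (by omega) h4
    · rw [ifz_pos c1]
      exact nd_le h3 h1 (by omega) h4
  · rw [ifz_pos c0]
    by_cases c1 : u / M ^ (k * r) / M ^ (2 * k) % H - 1 = 0
    · rw [c1, Helper31.RG.ifz_zero]
      exact nd_le h7 h1 (by omega) h4
    · rw [ifz_pos c1]
      exact nd_le h3 h8 (by omega) h4

/-- LSE. -/
theorem thm : Pool.Agent.Helper31.RG.G_LSE := by
  intro α _ q k r b Λ m BT PS C lt hq hk hr hb hΛ hm hBT hPS hC hlt hlt' hB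
  have hM : LS (fun z => 2 ^ Λ z) :=
    LS.pow_of_le (f := fun _ => 2) (by fun_prop) hΛ hC fun z => (hB z).l1
  have h : Bk q k r b (fun z => 2 ^ Λ z) BT PS C lt :=
    ⟨hq, hk, hr, hb, hM, hBT, hPS, hC, hlt, hlt', fun z => (hB z).b0, fun z => by positivity,
      fun z => (hB z).q1, fun z => (hB z).n1, fun z => (hB z).n2, fun z => (hB z).z1,
      fun z => (hB z).z2, fun z => (hB z).i1, fun z => (hB z).v1, fun z => (hB z).v2,
      fun z => (hB z).d1, fun z => by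
        rw [pow_L]
        refine le_trans ?_ (hB z).p1
        have hp := (pL_spec ((2 * k z + k z * r z) ^ (2 * k z) *
          ((2 * k z * b z) ^ (2 * k z) * q z))).1
        refine (Nat.pow_le_pow_left hp.two_le _).trans ?_
        exact Nat.pow_le_pow_right hp.pos (Nat.le_mul_of_pos_left _ (Nat.succ_pos _))⟩
  have hD := h.hD
  have hz1 := h.hz1
  have hMZ := h.hMZ
  have hMC := h.hMC
  have hH : LS (fun z => HH (k z) (r z) (Λ z)) := by
    unfold HH
    fun_prop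
  have hL : LS (fun z => (2 * k z * b z) ^ (2 * k z) * q z) := LS.mul hz1 hq
  have hVZ : LS (fun z => VZ (q z) (k z) (r z) (b z) (Λ z) (lt z) (btR (q z) (k z) (r z) (BT z))
      (psN (q z) (PS z)) (((k z + 1) * (m z / b z) + k z) * HH (k z) (r z) (Λ z))
      (nd (HH (k z) (r z) (Λ z)) ((2 ^ Λ z) ^ (2 * k z)) ((2 ^ Λ z) ^ (k z * r z))
        ((k z + 1) * (m z / b z) + k z) 0 (m z / b z * 2 ^ Λ z) 0)) := by
    unfold VZ
    refine LS.gval
      (p := fun z => pL ((2 * k z + k z * r z) ^ (2 * k z) *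
        ((2 * k z * b z) ^ (2 * k z) * q z)))
      (D := fun z => (2 * k z + k z * r z) ^ (2 * k z))
      (L := fun z => (2 * k z * b z) ^ (2 * k z) * q z)
      (h := fun z => ((k z + 1) * (m z / b z) + k z) * HH (k z) (r z) (Λ z))
      (root := fun z => nd (HH (k z) (r z) (Λ z)) ((2 ^ Λ z) ^ (2 * k z))
        ((2 ^ Λ z) ^ (k z * r z)) ((k z + 1) * (m z / b z) + k z) 0 (m z / b z * 2 ^ Λ z) 0)
      (G := fun z => HH (k z) (r z) (Λ z) * ((2 ^ Λ z) ^ (2 * k z) * (2 ^ Λ z) ^ (k z * r z)))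
      (C := C)
      (F := fun z u X => FZ (q z) (k z) (r z) (b z) (2 ^ Λ z) (lt z)
        (btR (q z) (k z) (r z) (BT z)) (psN (q z) (PS z))
        (u / (2 ^ Λ z) ^ (k z * r z) / (2 ^ Λ z) ^ (2 * k z) / HH (k z) (r z) (Λ z))
        (u / (2 ^ Λ z) ^ (k z * r z) / (2 ^ Λ z) ^ (2 * k z) % HH (k z) (r z) (Λ z))
        (u / (2 ^ Λ z) ^ (k z * r z) % (2 ^ Λ z) ^ (2 * k z))
        (u % (2 ^ Λ z) ^ (k z * r z)) X)
      (leaf := fun _ _ => 0)
      (ch := fun z u i => chZ (k z) (r z) (2 ^ Λ z) (HH (k z) (r z) (Λ z))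
        (u / (2 ^ Λ z) ^ (k z * r z) / (2 ^ Λ z) ^ (2 * k z) / HH (k z) (r z) (Λ z))
        (u / (2 ^ Λ z) ^ (k z * r z) / (2 ^ Λ z) ^ (2 * k z) % HH (k z) (r z) (Λ z))
        (u / (2 ^ Λ z) ^ (k z * r z) % (2 ^ Λ z) ^ (2 * k z))
        (u % (2 ^ Λ z) ^ (k z * r z)) i)
      ?_ hD hL ?_ ?_ ?_ hC ?_ ?_ ?_ ?_ ?_ ?_ ?_ ?_ ?_ ?_ ?_
    · unfold pL
      fun_prop
    · exact LS.mul (by fun_prop) hH
    · exact LS_nd hH hMZ hMC (by fun_prop) (LS.const 0) (LS.mul (by fun_prop) hM) (LS.const 0)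
    · exact LS.mul hH (LS.mul hMZ hMC)
    · have hH' : LS (fun w : α × ℕ × ℕ => HH (k w.1) (r w.1) (Λ w.1)) :=
        LS.comp (f := fun q : α × ℕ × ℕ => q.1) hH (by fun_prop)
      have hMZ' : LS (fun w : α × ℕ × ℕ => (2 ^ Λ w.1) ^ (2 * k w.1)) :=
        LS.comp (f := fun q : α × ℕ × ℕ => q.1) hMZ (by fun_prop)
      have hMC' : LS (fun w : α × ℕ × ℕ => (2 ^ Λ w.1) ^ (k w.1 * r w.1)) :=
        LS.comp (f := fun q : α × ℕ × ℕ => q.1) hMC (by fun_prop)
      have hu : LS (fun w : α × ℕ × ℕ => w.2.1) := by fun_prop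
      have hX : LS (fun w : α × ℕ × ℕ => w.2.2) := by fun_prop
      exact LS_FZ (h.comp (f := fun q : α × ℕ × ℕ => q.1) (by fun_prop))
        (LS.div (LS.div (LS.div hu hMC') hMZ') hH') (LS.mod (LS.div (LS.div hu hMC') hMZ') hH')
        (LS.mod (LS.div hu hMC') hMZ') (LS.mod hu hMC') hX
    · exact LS.const 0
    · have hH' : LS (fun w : α × ℕ × ℕ => HH (k w.1) (r w.1) (Λ w.1)) :=
        LS.comp (f := fun q : α × ℕ × ℕ => q.1) hH (by fun_prop)
      have hMZ' : LS (fun w : α × ℕ × ℕ => (2 ^ Λ w.1) ^ (2 * k w.1)) :=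
        LS.comp (f := fun q : α × ℕ × ℕ => q.1) hMZ (by fun_prop)
      have hMC' : LS (fun w : α × ℕ × ℕ => (2 ^ Λ w.1) ^ (k w.1 * r w.1)) :=
        LS.comp (f := fun q : α × ℕ × ℕ => q.1) hMC (by fun_prop)
      have hu : LS (fun w : α × ℕ × ℕ => w.2.1) := by fun_prop
      have hX : LS (fun w : α × ℕ × ℕ => w.2.2) := by fun_prop
      exact LS_chZ (h.comp (f := fun q : α × ℕ × ℕ => q.1) (by fun_prop)) hH'
        (LS.div (LS.div (LS.div hu hMC') hMZ') hH') (LS.mod (LS.div (LS.div hu hMC') hMZ') hH')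
        (LS.mod (LS.div hu hMC') hMZ') (LS.mod hu hMC') hX
    · intro z u i
      exact chZ_le (by positivity) (by unfold HH; omega) _ _
    · intro z
      exact (pL_spec _).1
    · intro z
      have := (pL_spec ((2 * k z + k z * r z) ^ (2 * k z) *
        ((2 * k z * b z) ^ (2 * k z) * q z))).2.1
      omega
    · intro z
      have := (pL_spec ((2 * k z + k z * r z) ^ (2 * k z) *
        ((2 * k z * b z) ^ (2 * k z) * q z))).2.1
      show (2 * k z + k z * r z) ^ (2 * k z) * ((2 * k z * b z) ^ (2 * k z) * q z) <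
        pL ((2 * k z + k z * r z) ^ (2 * k z) * ((2 * k z * b z) ^ (2 * k z) * q z)) - 1
      omega
    · intro z u x
      exact FZ_lt
    · intro z u
      show 0 < 2 ^ ((2 * k z * b z) ^ (2 * k z) * q z)
      positivity
    · exact fun z => (hB z).p1
    · exact fun z => (hB z).m1
  unfold Helper31.RG.eng
  have hlast : LS (fun z => (b z + m z % b z) * (2 * k z * b z)) := by fun_prop
  exact LS_digQ h.toBq hVZ hlast

end Pool.Agent.Helper96.RG.PkLSE
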